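import Mathlib
import Pool.Agent.H763.SK.ScaleK

set_option autoImplicit false

/-! # Prime-free translates of unions of `K` sequences of multiples at the record scale

Generalises `Pool.Agent.H361R2.PA.scale_mult` of the starting files (one sequence, never handed in). -/

namespace Pool.Agent.Results.MP_69be96_nt.RecordShapes

/-- `R X = log X (log₂ X)² log₄ X / (log₃ X)²` -/
noncomputable def R (X : ℝ) : ℝ :=
  Real.log X * Real.log (Real.log X) ^ 2 * Real.log (Real.log (Real.log (Real.log X))) /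
    Real.log (Real.log (Real.log X)) ^ 2

theorem result (D Q : ℕ) (hQ : 0 < Q) : ∃ c : ℝ, 0 < c ∧ ∃ X₀ : ℝ, ∀ X : ℝ, X₀ ≤ X →
    ∀ K L : ℕ, 1 ≤ K → Real.log X ≤ L → (K : ℝ) * L ≤ c * R X →
      ∀ f : ℕ → ℕ → ℤ, (∀ i < K, ∀ p m : ℕ, p.Prime → p ∣ m → (p : ℤ) ∣ f i m) →
        (∀ i < K, ∀ m : ℕ, 1 ≤ m → m ≤ L → |(f i m : ℝ)| ≤ Real.exp ((Real.log X) ^ D)) →
        ∀ r z : ℤ, ∃ n : ℤ, (z : ℝ) + X / 4 < n ∧ (n : ℝ) ≤ z + X ∧
          (∀ q : ℕ, q.Prime → q ∣ Q → (q : ℤ) ∣ n - r) ∧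
          ∀ i < K, ∀ m : ℕ, 1 ≤ m → m ≤ L → ¬ (n + f i m).natAbs.Prime := by
  obtain ⟨c, hc, X₀, h⟩ := Pool.Agent.H763.SK.scaleK_mult D Q hQ
  refine ⟨c, hc, X₀, fun X hX K L hK hXL hKL f hf hb r z => ?_⟩
  have e : Pool.Agent.H361R2.PA.FF 1 X = R X := by
    unfold Pool.Agent.H361R2.PA.FF R
    norm_num
  obtain ⟨n, h1, h2, h3, h4⟩ := h X hX K L hK hXL (by rw [e]; exact hKL) f hf hb r z
  exact ⟨n, h1, h2, h3, fun i hi m hm hm' hp => h4 i hi m hm hm' (Int.prime_iff_natAbs_prime.2 hp)⟩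

end Pool.Agent.Results.MP_69be96_nt.RecordShapes
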